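import Pool.Agent.H.MP_12a1af_nt.A

set_option autoImplicit false
open Finset Filter Pool.Agent.H.MP_12a1af_nt

namespace Pool.Agent.Results.MP_d5a1e1_nt.LowComplexity

theorem result (h : ℕ) (h2 : 2 ≤ h) (A : Set ℕ)
    (hA : ∃ N : ℕ, ∀ n : ℕ, N ≤ n →
      ∃ s : Multiset ℕ, Multiset.card s = h ∧ (∀ a ∈ s, a ∈ A) ∧ s.sum = n)
    (hp : ∀ ε : ℝ, 0 < ε → ∃ C : ℝ, ∀ n : ℕ, 1 ≤ n →
      ({F : Finset ℕ | ∃ t, ∀ i, i ∈ F ↔ i < n ∧ t + i ∈ A}.ncard : ℝ) ≤ C * (n : ℝ) ^ (1 + ε))
    (M : ℕ) :
    ∃ n : ℕ,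
      M < Set.ncard {s : Multiset ℕ | Multiset.card s = h ∧ (∀ a ∈ s, a ∈ A) ∧ s.sum = n} := by
  classical
  by_contra hc
  push Not at hc
  have cov : ∀ (N : ℕ) (s : Multiset ℕ), Multiset.card s = h → (∀ a ∈ s, a ∈ A) → s.sum < N →
      ∃ g ∈ Fintype.piFinset fun _ : Fin h => pat A 0 N, univ.val.map g = s := fun N s a b c => by
    obtain ⟨l, rfl⟩ := Quot.exists_rep s
    have a : l.length = h := a
    subst a
    refine ⟨l.get, Fintype.mem_piFinset.2 fun i => mem_pat.2 ⟨?_, by
      simpa using b _ (List.get_mem l i)⟩, by simp⟩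
    exact lt_of_le_of_lt (Multiset.single_le_sum (by simp) _ (List.get_mem l i)) c
  have fin : ∀ n,
      {s : Multiset ℕ | Multiset.card s = h ∧ (∀ a ∈ s, a ∈ A) ∧ s.sum = n}.Finite := fun n =>
    ((Fintype.piFinset fun _ : Fin h => pat A 0 (n + 1)).image
      fun g => univ.val.map g).finite_toSet.subset fun s hs =>
      mem_coe.2 (mem_image.2 (cov _ s hs.1 hs.2.1 (by rw [hs.2.2]; omega)))
  have bd : ∀ (n : ℕ) (S : Finset (Multiset ℕ)),
      (∀ s ∈ S, Multiset.card s = h ∧ (∀ a ∈ s, a ∈ A) ∧ s.sum = n) → #S ≤ M := fun n S e => by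
    rw [← Set.ncard_coe_finset]
    exact (Set.ncard_le_ncard e (fin n)).trans (hc n)
  obtain ⟨N0, hN⟩ := hA
  have h0 : (0 : ℝ) < h := by positivity
  have h1 : (2 : ℝ) ≤ h := by exact_mod_cast h2
  obtain ⟨Y, σ, y1, y2⟩ := core (A := A) (α := (h : ℝ)⁻¹) (c := 1 / 2)
    (K := h + ((h.factorial : ℝ) * (M * h)) ^ (h : ℝ)⁻¹) (by positivity)
    (inv_lt_one_of_one_lt₀ (by linarith)) (by norm_num) (fun t n n1 => by
      have a := card_le_mul_card_image_of_maps_to (s := (pat A t n).powersetCard h)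
        (t := range (h * n)) (f := fun F => ∑ i ∈ F, i) (fun F hF => by
          obtain ⟨b, c⟩ := mem_powersetCard.1 hF
          refine mem_range.2 (lt_of_lt_of_le (sum_lt_sum_of_nonempty (g := fun _ => n)
            (card_pos.1 (by omega)) fun i hi => (mem_pat.1 (b hi)).1) ?_)
          simp [c]) M fun b _ => by
          rw [← card_image_of_injective (f := fun F : Finset ℕ => F.val.map (t + ·)) _
            fun p q e => val_injective (Multiset.map_injective (add_right_injective t) e)]
          refine bd (h * t + b) _ fun p hp => ?_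
          obtain ⟨F, hq, rfl⟩ := mem_image.1 hp
          simp only [mem_filter, mem_powersetCard] at hq
          refine ⟨by simpa using hq.1.2, fun a ha => ?_, ?_⟩
          · obtain ⟨i, hi, rfl⟩ := Multiset.mem_map.1 ha
            exact (mem_pat.1 (hq.1.1 hi)).2
          · change ∑ i ∈ F, (t + i) = _
            rw [sum_add_distrib, hq.2, sum_const, hq.1.2, smul_eq_mul]
      rw [card_powersetCard, card_range] at a
      have b := Nat.pow_le_choose (α := ℝ) h #(pat A t n)
      have a' : ((#(pat A t n)).choose h : ℝ) ≤ M * (h * n) := by exact_mod_cast a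
      rw [div_le_iff₀ (by positivity)] at b
      have c : ((#(pat A t n) + 1 - h : ℕ) : ℝ) ≤
          ((h.factorial : ℝ) * (M * h)) ^ (h : ℝ)⁻¹ * (n : ℝ) ^ (h : ℝ)⁻¹ := by
        rw [← Real.mul_rpow (by positivity) (by positivity),
          Real.le_rpow_inv_iff_of_pos (by positivity) (by positivity) h0, Real.rpow_natCast]
        refine b.trans ?_
        nlinarith [mul_le_mul_of_nonneg_right a' (Nat.cast_nonneg (α := ℝ) h.factorial)]
      have d : (#(pat A t n) : ℝ) ≤ h + ((#(pat A t n) + 1 - h : ℕ) : ℝ) := by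
        exact_mod_cast (by omega : #(pat A t n) ≤ h + (#(pat A t n) + 1 - h))
      have e : (1 : ℝ) ≤ (n : ℝ) ^ (h : ℝ)⁻¹ := Real.one_le_rpow (by exact_mod_cast n1) (by positivity)
      nlinarith)
    (Eventually.frequently (by
      filter_upwards [eventually_ge_atTop (2 * N0)] with N e
      have a : #(Ico N0 N) ≤ #(Fintype.piFinset fun _ : Fin h => pat A 0 N) := by
        refine le_trans (card_le_card fun n hn => ?_) (card_image_le (f := fun g => (univ.val.map g).sum))
        obtain ⟨s, a, b, c⟩ := hN n (mem_Ico.1 hn).1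
        obtain ⟨g, d, rfl⟩ := cov N s a b (c ▸ (mem_Ico.1 hn).2)
        exact mem_image.2 ⟨g, d, c⟩
      simp only [Nat.card_Ico, Fintype.card_piFinset, prod_const, card_univ, Fintype.card_fin] at a
      have b : (N : ℝ) ≤ (2 * (#(pat A 0 N) : ℝ)) ^ h := by
        have : N ≤ (2 * #(pat A 0 N)) ^ h := by
          rw [mul_pow]
          have := Nat.pow_le_pow_right (n := 2) (by norm_num) (show 1 ≤ h by omega)
          nlinarith [Nat.sub_add_cancel (show N0 ≤ N by omega)]
        exact_mod_cast this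
      have := (Real.rpow_inv_le_iff_of_pos (x := N) (y := 2 * (#(pat A 0 N) : ℝ)) (by positivity)
        (by positivity) h0).2 (by rwa [Real.rpow_natCast])
      linarith))
    (fun ε h => by simpa only [PP_card] using hp ε h) (2 * M)
  obtain ⟨a, ha⟩ := card_pos.1 (by omega : 0 < #Y)
  have k := card_le_mul_card_image (f := fun y => y ::ₘ (σ - y) ::ₘ Multiset.replicate (h - 2) a) Y 2
    fun s hs => by
      obtain ⟨z, hz, rfl⟩ := mem_image.1 hs
      refine le_trans (card_le_card fun y hy => ?_) (card_le_two (a := z) (b := σ - z))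
      have := (mem_filter.1 hy).2
      rw [← Multiset.singleton_add, ← Multiset.singleton_add, ← Multiset.singleton_add z,
        ← Multiset.singleton_add (σ - z), ← add_assoc, ← add_assoc, add_left_inj] at this
      have b : y ∈ ({y} + {σ - y} : Multiset ℕ) := by simp
      rw [this] at b
      simpa using b
  have := bd (σ + (h - 2) * a) (Y.image fun y => y ::ₘ (σ - y) ::ₘ Multiset.replicate (h - 2) a)
    fun p hp => by
      obtain ⟨y, hy, rfl⟩ := mem_image.1 hp
      refine ⟨by simp; omega, fun b hb => ?_, ?_⟩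
      · simp only [Multiset.mem_cons, Multiset.mem_replicate] at hb
        rcases hb with rfl | rfl | ⟨-, rfl⟩
        exacts [(y2 _ hy).1, (y2 _ (y2 y hy).2.2).1, (y2 _ ha).1]
      · have := (y2 y hy).2.1
        simp only [Multiset.sum_cons, Multiset.sum_replicate, smul_eq_mul]
        omega
  omega

end Pool.Agent.Results.MP_d5a1e1_nt.LowComplexity
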